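import Pool.Agent.H70.AB.W75a.Data

/-!
# Anchors and witnesses W75a
-/

namespace Pool.Agent.H70.AB.W75a

open Pool.Agent.H70.AB

/-- anchors -/
def anc6 : List (ℕ × ℕ × List ℕ) :=
  List.cons (nat_lit 168940, nat_lit 0, List.cons (nat_lit 99393) <| List.cons (nat_lit 133666) <| List.cons (nat_lit 154898) <| List.nil) <|
  List.cons (nat_lit 169641, nat_lit 0, List.cons (nat_lit 184641) <| List.cons (nat_lit 123929) <| List.cons (nat_lit 109041) <| List.cons (nat_lit 60506) <| List.cons (nat_lit 76002) <| List.nil) <|
  List.cons (nat_lit 170342, nat_lit 0, List.cons (nat_lit 141705) <| List.cons (nat_lit 141577) <| List.cons (nat_lit 146449) <| List.cons (nat_lit 49930) <| List.cons (nat_lit 62745) <| List.nil) <|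
  List.cons (nat_lit 171043, nat_lit 0, List.cons (nat_lit 167945) <| List.cons (nat_lit 171049) <| List.cons (nat_lit 165625) <| List.cons (nat_lit 165777) <| List.cons (nat_lit 16026) <| List.cons (nat_lit 188129) <| List.nil) <|
  List.cons (nat_lit 171744, nat_lit 0, List.cons (nat_lit 154258) <| List.cons (nat_lit 29466) <| List.cons (nat_lit 155937) <| List.nil) <|
  List.cons (nat_lit 172445, nat_lit 0, List.cons (nat_lit 95945) <| List.cons (nat_lit 69577) <| List.cons (nat_lit 99609) <| List.cons (nat_lit 80626) <| List.cons (nat_lit 32985) <| List.nil) <|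
  List.cons (nat_lit 173146, nat_lit 0, List.cons (nat_lit 119145) <| List.cons (nat_lit 152090) <| List.cons (nat_lit 103626) <| List.nil) <|
  List.cons (nat_lit 173847, nat_lit 0, List.cons (nat_lit 64265) <| List.cons (nat_lit 67929) <| List.cons (nat_lit 50657) <| List.cons (nat_lit 63017) <| List.cons (nat_lit 418) <| List.cons (nat_lit 110809) <| List.nil) <|
  List.cons (nat_lit 173978, nat_lit 0, List.cons (nat_lit 101865) <| List.cons (nat_lit 77809) <| List.cons (nat_lit 39489) <| List.cons (nat_lit 53105) <| List.cons (nat_lit 25810) <| List.cons (nat_lit 37672) <| List.nil) <|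
  []

/-- anchors -/
def anc5 : List (ℕ × ℕ × List ℕ) :=
  List.cons (nat_lit 140900, nat_lit 0, List.cons (nat_lit 58337) <| List.cons (nat_lit 147369) <| List.cons (nat_lit 57921) <| List.cons (nat_lit 188386) <| List.cons (nat_lit 147961) <| List.nil) <|
  List.cons (nat_lit 141601, nat_lit 0, List.cons (nat_lit 59617) <| List.cons (nat_lit 149265) <| List.cons (nat_lit 156281) <| List.cons (nat_lit 94833) <| List.cons (nat_lit 57274) <| List.nil) <|
  List.cons (nat_lit 142302, nat_lit 0, List.cons (nat_lit 81801) <| List.cons (nat_lit 111129) <| List.cons (nat_lit 109657) <| List.cons (nat_lit 125553) <| List.cons (nat_lit 128098) <| List.nil) <|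
  List.cons (nat_lit 143003, nat_lit 0, List.cons (nat_lit 76945) <| List.cons (nat_lit 133217) <| List.cons (nat_lit 144873) <| List.cons (nat_lit 116281) <| List.cons (nat_lit 148978) <| List.nil) <|
  List.cons (nat_lit 143704, nat_lit 0, List.cons (nat_lit 79185) <| List.cons (nat_lit 138761) <| List.cons (nat_lit 141177) <| List.cons (nat_lit 58601) <| List.cons (nat_lit 153505) <| List.cons (nat_lit 103482) <| List.nil) <|
  List.cons (nat_lit 144405, nat_lit 0, List.cons (nat_lit 11777) <| List.cons (nat_lit 12401) <| List.cons (nat_lit 40353) <| List.cons (nat_lit 9249) <| List.cons (nat_lit 136130) <| List.cons (nat_lit 33025) <| List.nil) <|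
  List.cons (nat_lit 145106, nat_lit 0, List.cons (nat_lit 59866) <| List.cons (nat_lit 92266) <| List.cons (nat_lit 182873) <| List.nil) <|
  List.cons (nat_lit 145807, nat_lit 0, List.cons (nat_lit 58281) <| List.cons (nat_lit 56985) <| List.cons (nat_lit 79634) <| List.cons (nat_lit 7378) <| List.cons (nat_lit 100648) <| List.nil) <|
  List.cons (nat_lit 146508, nat_lit 0, List.cons (nat_lit 119306) <| List.cons (nat_lit 145362) <| List.cons (nat_lit 17665) <| List.nil) <|
  List.cons (nat_lit 147209, nat_lit 0, List.cons (nat_lit 68097) <| List.cons (nat_lit 66185) <| List.cons (nat_lit 10241) <| List.cons (nat_lit 54385) <| List.cons (nat_lit 140322) <| List.cons (nat_lit 68418) <| List.nil) <|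
  List.cons (nat_lit 147910, nat_lit 0, List.cons (nat_lit 31169) <| List.cons (nat_lit 49209) <| List.cons (nat_lit 96913) <| List.cons (nat_lit 37689) <| List.cons (nat_lit 189426) <| List.cons (nat_lit 24393) <| List.nil) <|
  List.cons (nat_lit 148611, nat_lit 0, List.cons (nat_lit 64801) <| List.cons (nat_lit 78177) <| List.cons (nat_lit 150129) <| List.cons (nat_lit 156210) <| List.cons (nat_lit 93377) <| List.nil) <|
  List.cons (nat_lit 149312, nat_lit 0, List.cons (nat_lit 30529) <| List.cons (nat_lit 8001) <| List.cons (nat_lit 108041) <| List.cons (nat_lit 53201) <| List.cons (nat_lit 178210) <| List.cons (nat_lit 6744) <| List.nil) <|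
  List.cons (nat_lit 150013, nat_lit 0, List.cons (nat_lit 48682) <| List.cons (nat_lit 191058) <| List.cons (nat_lit 118961) <| List.nil) <|
  List.cons (nat_lit 150714, nat_lit 0, List.cons (nat_lit 114977) <| List.cons (nat_lit 40578) <| List.cons (nat_lit 85658) <| List.nil) <|
  List.cons (nat_lit 151415, nat_lit 0, List.cons (nat_lit 72145) <| List.cons (nat_lit 73937) <| List.cons (nat_lit 100842) <| List.cons (nat_lit 34289) <| List.cons (nat_lit 130617) <| List.nil) <|
  List.cons (nat_lit 152116, nat_lit 0, List.cons (nat_lit 156881) <| List.cons (nat_lit 157601) <| List.cons (nat_lit 171761) <| List.cons (nat_lit 139833) <| List.cons (nat_lit 128202) <| List.cons (nat_lit 130705) <| List.nil) <|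
  List.cons (nat_lit 152817, nat_lit 0, List.cons (nat_lit 139297) <| List.cons (nat_lit 150601) <| List.cons (nat_lit 138873) <| List.cons (nat_lit 3146) <| List.cons (nat_lit 188841) <| List.nil) <|
  List.cons (nat_lit 153518, nat_lit 0, List.cons (nat_lit 10137) <| List.cons (nat_lit 4362) <| List.cons (nat_lit 130946) <| List.cons (nat_lit 189841) <| List.nil) <|
  List.cons (nat_lit 154219, nat_lit 0, List.cons (nat_lit 166697) <| List.cons (nat_lit 150546) <| List.cons (nat_lit 169698) <| List.nil) <|
  List.cons (nat_lit 154920, nat_lit 0, List.cons (nat_lit 140074) <| List.cons (nat_lit 42538) <| List.cons (nat_lit 153425) <| List.nil) <|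
  List.cons (nat_lit 155621, nat_lit 0, List.cons (nat_lit 123170) <| List.cons (nat_lit 172466) <| List.nil) <|
  List.cons (nat_lit 156322, nat_lit 0, List.cons (nat_lit 26994) <| List.cons (nat_lit 122058) <| List.cons (nat_lit 21624) <| List.nil) <|
  List.cons (nat_lit 157023, nat_lit 0, List.cons (nat_lit 146089) <| List.cons (nat_lit 141721) <| List.cons (nat_lit 160337) <| List.cons (nat_lit 135010) <| List.cons (nat_lit 186074) <| List.nil) <|
  List.cons (nat_lit 157724, nat_lit 0, List.cons (nat_lit 7721) <| List.cons (nat_lit 31210) <| List.cons (nat_lit 87017) <| List.cons (nat_lit 169498) <| List.nil) <|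
  List.cons (nat_lit 158425, nat_lit 0, List.cons (nat_lit 119785) <| List.cons (nat_lit 130505) <| List.cons (nat_lit 163193) <| List.cons (nat_lit 119801) <| List.cons (nat_lit 119249) <| List.cons (nat_lit 94426) <| List.nil) <|
  List.cons (nat_lit 159126, nat_lit 0, List.cons (nat_lit 139673) <| List.cons (nat_lit 89369) <| List.cons (nat_lit 138689) <| List.cons (nat_lit 169050) <| List.cons (nat_lit 106394) <| List.nil) <|
  List.cons (nat_lit 159827, nat_lit 0, List.cons (nat_lit 132585) <| List.cons (nat_lit 164457) <| List.cons (nat_lit 109529) <| List.cons (nat_lit 78361) <| List.cons (nat_lit 164353) <| List.cons (nat_lit 78177) <| List.cons (nat_lit 158674) <| List.cons (nat_lit 8440) <| List.nil) <|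
  List.cons (nat_lit 160528, nat_lit 0, List.cons (nat_lit 42505) <| List.cons (nat_lit 65770) <| List.cons (nat_lit 24498) <| List.cons (nat_lit 30497) <| List.nil) <|
  List.cons (nat_lit 161229, nat_lit 0, List.cons (nat_lit 186505) <| List.cons (nat_lit 34121) <| List.cons (nat_lit 189514) <| List.cons (nat_lit 113618) <| List.cons (nat_lit 28185) <| List.nil) <|
  List.cons (nat_lit 161930, nat_lit 0, List.cons (nat_lit 116721) <| List.cons (nat_lit 81849) <| List.cons (nat_lit 55833) <| List.cons (nat_lit 57017) <| List.cons (nat_lit 60681) <| List.cons (nat_lit 79098) <| List.nil) <|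
  List.cons (nat_lit 162631, nat_lit 0, List.cons (nat_lit 82961) <| List.cons (nat_lit 118073) <| List.cons (nat_lit 148633) <| List.cons (nat_lit 117993) <| List.cons (nat_lit 55810) <| List.cons (nat_lit 165433) <| List.nil) <|
  List.cons (nat_lit 163332, nat_lit 0, List.cons (nat_lit 45633) <| List.cons (nat_lit 76657) <| List.cons (nat_lit 123585) <| List.cons (nat_lit 48209) <| List.cons (nat_lit 178154) <| List.cons (nat_lit 44472) <| List.nil) <|
  List.cons (nat_lit 164033, nat_lit 0, List.cons (nat_lit 160425) <| List.cons (nat_lit 45553) <| List.cons (nat_lit 46273) <| List.cons (nat_lit 172922) <| List.cons (nat_lit 62274) <| List.nil) <|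
  List.cons (nat_lit 164734, nat_lit 0, List.cons (nat_lit 47761) <| List.cons (nat_lit 167489) <| List.cons (nat_lit 163481) <| List.cons (nat_lit 137929) <| List.cons (nat_lit 158922) <| List.nil) <|
  List.cons (nat_lit 165435, nat_lit 0, List.cons (nat_lit 189065) <| List.cons (nat_lit 140393) <| List.cons (nat_lit 112257) <| List.cons (nat_lit 89218) <| List.cons (nat_lit 79938) <| List.nil) <|
  List.cons (nat_lit 166136, nat_lit 0, List.cons (nat_lit 142522) <| List.cons (nat_lit 96114) <| List.nil) <|
  List.cons (nat_lit 166837, nat_lit 0, List.cons (nat_lit 185002) <| List.cons (nat_lit 154098) <| List.nil) <|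
  List.cons (nat_lit 167538, nat_lit 0, List.cons (nat_lit 102185) <| List.cons (nat_lit 21450) <| List.cons (nat_lit 168434) <| List.cons (nat_lit 93640) <| List.nil) <|
  List.cons (nat_lit 168239, nat_lit 0, List.cons (nat_lit 174185) <| List.cons (nat_lit 117737) <| List.cons (nat_lit 104481) <| List.cons (nat_lit 127025) <| List.cons (nat_lit 38258) <| List.cons (nat_lit 52793) <| List.nil) <|
  anc6

/-- anchors -/
def anc4 : List (ℕ × ℕ × List ℕ) :=
  List.cons (nat_lit 112860, nat_lit 0, List.cons (nat_lit 163441) <| List.cons (nat_lit 7770) <| List.cons (nat_lit 51538) <| List.cons (nat_lit 188657) <| List.nil) <|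
  List.cons (nat_lit 113561, nat_lit 0, List.cons (nat_lit 64241) <| List.cons (nat_lit 53362) <| List.cons (nat_lit 29306) <| List.cons (nat_lit 172833) <| List.nil) <|
  List.cons (nat_lit 114262, nat_lit 0, List.cons (nat_lit 113057) <| List.cons (nat_lit 184801) <| List.cons (nat_lit 99241) <| List.cons (nat_lit 50793) <| List.cons (nat_lit 23266) <| List.cons (nat_lit 166441) <| List.nil) <|
  List.cons (nat_lit 114963, nat_lit 0, List.cons (nat_lit 80097) <| List.cons (nat_lit 53873) <| List.cons (nat_lit 76002) <| List.cons (nat_lit 150953) <| List.cons (nat_lit 156201) <| List.nil) <|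
  List.cons (nat_lit 115664, nat_lit 0, List.cons (nat_lit 189233) <| List.cons (nat_lit 99210) <| List.cons (nat_lit 17618) <| List.nil) <|
  List.cons (nat_lit 116365, nat_lit 0, List.cons (nat_lit 45361) <| List.cons (nat_lit 44409) <| List.cons (nat_lit 186657) <| List.cons (nat_lit 186577) <| List.cons (nat_lit 28234) <| List.cons (nat_lit 109946) <| List.nil) <|
  List.cons (nat_lit 117066, nat_lit 0, List.cons (nat_lit 185697) <| List.cons (nat_lit 128521) <| List.cons (nat_lit 29618) <| List.cons (nat_lit 146658) <| List.nil) <|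
  List.cons (nat_lit 117767, nat_lit 0, List.cons (nat_lit 81521) <| List.cons (nat_lit 153554) <| List.cons (nat_lit 139057) <| List.cons (nat_lit 145202) <| List.nil) <|
  List.cons (nat_lit 118468, nat_lit 0, List.cons (nat_lit 53098) <| List.cons (nat_lit 190890) <| List.cons (nat_lit 2769) <| List.nil) <|
  List.cons (nat_lit 119169, nat_lit 0, List.cons (nat_lit 71930) <| List.cons (nat_lit 157850) <| List.cons (nat_lit 148952) <| List.nil) <|
  List.cons (nat_lit 119870, nat_lit 0, List.cons (nat_lit 182017) <| List.cons (nat_lit 64753) <| List.cons (nat_lit 123841) <| List.cons (nat_lit 187889) <| List.cons (nat_lit 123441) <| List.cons (nat_lit 17682) <| List.nil) <|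
  List.cons (nat_lit 120571, nat_lit 0, List.cons (nat_lit 3082) <| List.cons (nat_lit 26098) <| List.cons (nat_lit 110658) <| List.nil) <|
  List.cons (nat_lit 121272, nat_lit 0, List.cons (nat_lit 167441) <| List.cons (nat_lit 183554) <| List.cons (nat_lit 88298) <| List.cons (nat_lit 36648) <| List.nil) <|
  List.cons (nat_lit 121973, nat_lit 0, List.cons (nat_lit 185305) <| List.cons (nat_lit 168721) <| List.cons (nat_lit 172809) <| List.cons (nat_lit 58937) <| List.cons (nat_lit 146898) <| List.cons (nat_lit 40584) <| List.nil) <|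
  List.cons (nat_lit 122674, nat_lit 0, List.cons (nat_lit 168841) <| List.cons (nat_lit 180585) <| List.cons (nat_lit 178937) <| List.cons (nat_lit 107953) <| List.cons (nat_lit 81698) <| List.cons (nat_lit 25833) <| List.nil) <|
  List.cons (nat_lit 123375, nat_lit 0, List.cons (nat_lit 66818) <| List.cons (nat_lit 96010) <| List.nil) <|
  List.cons (nat_lit 124076, nat_lit 0, List.cons (nat_lit 186817) <| List.cons (nat_lit 7218) <| List.cons (nat_lit 121090) <| List.cons (nat_lit 69377) <| List.nil) <|
  List.cons (nat_lit 124777, nat_lit 0, List.cons (nat_lit 43137) <| List.cons (nat_lit 21473) <| List.cons (nat_lit 109953) <| List.cons (nat_lit 20137) <| List.cons (nat_lit 160378) <| List.cons (nat_lit 151825) <| List.nil) <|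
  List.cons (nat_lit 125478, nat_lit 0, List.cons (nat_lit 122105) <| List.cons (nat_lit 25554) <| List.cons (nat_lit 15625) <| List.cons (nat_lit 50274) <| List.cons (nat_lit 182336) <| List.nil) <|
  List.cons (nat_lit 126179, nat_lit 0, List.cons (nat_lit 123225) <| List.cons (nat_lit 122865) <| List.cons (nat_lit 24842) <| List.cons (nat_lit 14378) <| List.nil) <|
  List.cons (nat_lit 126880, nat_lit 0, List.cons (nat_lit 111705) <| List.cons (nat_lit 56601) <| List.cons (nat_lit 61897) <| List.cons (nat_lit 68257) <| List.cons (nat_lit 143426) <| List.cons (nat_lit 81384) <| List.nil) <|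
  List.cons (nat_lit 127581, nat_lit 0, List.cons (nat_lit 9010) <| List.cons (nat_lit 102034) <| List.cons (nat_lit 154721) <| List.nil) <|
  List.cons (nat_lit 128282, nat_lit 0, List.cons (nat_lit 186761) <| List.cons (nat_lit 155009) <| List.cons (nat_lit 144793) <| List.cons (nat_lit 142329) <| List.cons (nat_lit 90361) <| List.cons (nat_lit 190250) <| List.cons (nat_lit 108480) <| List.nil) <|
  List.cons (nat_lit 128983, nat_lit 0, List.cons (nat_lit 50258) <| List.cons (nat_lit 58930) <| List.cons (nat_lit 32600) <| List.nil) <|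
  List.cons (nat_lit 129684, nat_lit 0, List.cons (nat_lit 120994) <| List.cons (nat_lit 94338) <| List.cons (nat_lit 62529) <| List.nil) <|
  List.cons (nat_lit 130385, nat_lit 0, List.cons (nat_lit 91457) <| List.cons (nat_lit 88873) <| List.cons (nat_lit 2722) <| List.cons (nat_lit 125818) <| List.nil) <|
  List.cons (nat_lit 131086, nat_lit 0, List.cons (nat_lit 42177) <| List.cons (nat_lit 33434) <| List.cons (nat_lit 74178) <| List.nil) <|
  List.cons (nat_lit 131787, nat_lit 0, List.cons (nat_lit 100417) <| List.cons (nat_lit 128137) <| List.cons (nat_lit 82345) <| List.cons (nat_lit 11738) <| List.cons (nat_lit 161233) <| List.nil) <|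
  List.cons (nat_lit 132488, nat_lit 0, List.cons (nat_lit 27402) <| List.cons (nat_lit 66970) <| List.cons (nat_lit 56848) <| List.nil) <|
  List.cons (nat_lit 133189, nat_lit 0, List.cons (nat_lit 128737) <| List.cons (nat_lit 102121) <| List.cons (nat_lit 52514) <| List.cons (nat_lit 12282) <| List.nil) <|
  List.cons (nat_lit 133890, nat_lit 0, List.cons (nat_lit 20417) <| List.cons (nat_lit 75985) <| List.cons (nat_lit 34345) <| List.cons (nat_lit 102193) <| List.cons (nat_lit 75729) <| List.cons (nat_lit 6674) <| List.cons (nat_lit 51265) <| List.nil) <|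
  List.cons (nat_lit 134591, nat_lit 0, List.cons (nat_lit 29506) <| List.cons (nat_lit 116442) <| List.cons (nat_lit 84785) <| List.nil) <|
  List.cons (nat_lit 135292, nat_lit 0, List.cons (nat_lit 71705) <| List.cons (nat_lit 9497) <| List.cons (nat_lit 175353) <| List.cons (nat_lit 174521) <| List.cons (nat_lit 3386) <| List.cons (nat_lit 122465) <| List.nil) <|
  List.cons (nat_lit 135993, nat_lit 0, List.cons (nat_lit 67937) <| List.cons (nat_lit 140017) <| List.cons (nat_lit 187130) <| List.cons (nat_lit 65786) <| List.nil) <|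
  List.cons (nat_lit 136694, nat_lit 0, List.cons (nat_lit 81553) <| List.cons (nat_lit 69521) <| List.cons (nat_lit 127249) <| List.cons (nat_lit 159530) <| List.cons (nat_lit 130881) <| List.nil) <|
  List.cons (nat_lit 137395, nat_lit 0, List.cons (nat_lit 36897) <| List.cons (nat_lit 51377) <| List.cons (nat_lit 51793) <| List.cons (nat_lit 129018) <| List.cons (nat_lit 82385) <| List.nil) <|
  List.cons (nat_lit 138096, nat_lit 0, List.cons (nat_lit 89393) <| List.cons (nat_lit 28593) <| List.cons (nat_lit 165338) <| List.cons (nat_lit 85314) <| List.nil) <|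
  List.cons (nat_lit 138797, nat_lit 0, List.cons (nat_lit 30033) <| List.cons (nat_lit 3217) <| List.cons (nat_lit 29345) <| List.cons (nat_lit 4545) <| List.cons (nat_lit 79738) <| List.cons (nat_lit 123817) <| List.nil) <|
  List.cons (nat_lit 139498, nat_lit 0, List.cons (nat_lit 66657) <| List.cons (nat_lit 94081) <| List.cons (nat_lit 55441) <| List.cons (nat_lit 42769) <| List.cons (nat_lit 22618) <| List.cons (nat_lit 138864) <| List.nil) <|
  List.cons (nat_lit 140199, nat_lit 0, List.cons (nat_lit 9041) <| List.cons (nat_lit 110914) <| List.cons (nat_lit 187906) <| List.nil) <|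
  anc5

/-- anchors -/
def anc3 : List (ℕ × ℕ × List ℕ) :=
  List.cons (nat_lit 84820, nat_lit 1, List.cons (nat_lit 140193) <| List.cons (nat_lit 58746) <| List.cons (nat_lit 53609) <| List.cons (nat_lit 111337) <| List.nil) <|
  List.cons (nat_lit 85521, nat_lit 1, List.cons (nat_lit 152585) <| List.cons (nat_lit 101697) <| List.cons (nat_lit 111026) <| List.cons (nat_lit 183770) <| List.nil) <|
  List.cons (nat_lit 86222, nat_lit 1, List.cons (nat_lit 177601) <| List.cons (nat_lit 145609) <| List.cons (nat_lit 29897) <| List.cons (nat_lit 11642) <| List.cons (nat_lit 178194) <| List.nil) <|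
  List.cons (nat_lit 86923, nat_lit 1, List.cons (nat_lit 61074) <| List.cons (nat_lit 157250) <| List.cons (nat_lit 157728) <| List.nil) <|
  List.cons (nat_lit 87624, nat_lit 1, List.cons (nat_lit 147305) <| List.cons (nat_lit 178706) <| List.cons (nat_lit 146706) <| List.nil) <|
  List.cons (nat_lit 88325, nat_lit 1, List.cons (nat_lit 185385) <| List.cons (nat_lit 169969) <| List.cons (nat_lit 167497) <| List.cons (nat_lit 146441) <| List.cons (nat_lit 49858) <| List.cons (nat_lit 147993) <| List.nil) <|
  List.cons (nat_lit 89026, nat_lit 1, List.cons (nat_lit 124745) <| List.cons (nat_lit 112305) <| List.cons (nat_lit 112969) <| List.cons (nat_lit 58362) <| List.cons (nat_lit 17865) <| List.nil) <|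
  List.cons (nat_lit 89727, nat_lit 1, List.cons (nat_lit 59650) <| List.cons (nat_lit 8394) <| List.cons (nat_lit 20545) <| List.nil) <|
  List.cons (nat_lit 90428, nat_lit 1, List.cons (nat_lit 138665) <| List.cons (nat_lit 137137) <| List.cons (nat_lit 182777) <| List.cons (nat_lit 139001) <| List.cons (nat_lit 185554) <| List.nil) <|
  List.cons (nat_lit 91129, nat_lit 1, List.cons (nat_lit 151465) <| List.cons (nat_lit 99089) <| List.cons (nat_lit 152273) <| List.cons (nat_lit 130394) <| List.cons (nat_lit 139369) <| List.nil) <|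
  List.cons (nat_lit 91830, nat_lit 1, List.cons (nat_lit 126913) <| List.cons (nat_lit 111001) <| List.cons (nat_lit 82546) <| List.cons (nat_lit 146562) <| List.cons (nat_lit 172920) <| List.nil) <|
  List.cons (nat_lit 92531, nat_lit 1, List.cons (nat_lit 68450) <| List.cons (nat_lit 44050) <| List.nil) <|
  List.cons (nat_lit 93232, nat_lit 0, List.cons (nat_lit 31578) <| List.cons (nat_lit 168258) <| List.nil) <|
  List.cons (nat_lit 93933, nat_lit 0, List.cons (nat_lit 169753) <| List.cons (nat_lit 110761) <| List.cons (nat_lit 106001) <| List.cons (nat_lit 158993) <| List.cons (nat_lit 121442) <| List.nil) <|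
  List.cons (nat_lit 94634, nat_lit 0, List.cons (nat_lit 173394) <| List.cons (nat_lit 29250) <| List.nil) <|
  List.cons (nat_lit 95335, nat_lit 0, List.cons (nat_lit 68505) <| List.cons (nat_lit 34417) <| List.cons (nat_lit 78362) <| List.cons (nat_lit 85018) <| List.nil) <|
  List.cons (nat_lit 96036, nat_lit 0, List.cons (nat_lit 180097) <| List.cons (nat_lit 65281) <| List.cons (nat_lit 31689) <| List.cons (nat_lit 72514) <| List.cons (nat_lit 8745) <| List.cons (nat_lit 158001) <| List.nil) <|
  List.cons (nat_lit 96737, nat_lit 0, List.cons (nat_lit 169034) <| List.cons (nat_lit 55906) <| List.cons (nat_lit 73585) <| List.nil) <|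
  List.cons (nat_lit 97438, nat_lit 0, List.cons (nat_lit 62105) <| List.cons (nat_lit 50217) <| List.cons (nat_lit 49009) <| List.cons (nat_lit 122146) <| List.cons (nat_lit 159330) <| List.nil) <|
  List.cons (nat_lit 98139, nat_lit 0, List.cons (nat_lit 187121) <| List.cons (nat_lit 131145) <| List.cons (nat_lit 73465) <| List.cons (nat_lit 43802) <| List.cons (nat_lit 3105) <| List.nil) <|
  List.cons (nat_lit 98840, nat_lit 0, List.cons (nat_lit 179937) <| List.cons (nat_lit 6321) <| List.cons (nat_lit 21241) <| List.cons (nat_lit 7185) <| List.cons (nat_lit 61914) <| List.cons (nat_lit 87096) <| List.nil) <|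
  List.cons (nat_lit 99541, nat_lit 0, List.cons (nat_lit 40257) <| List.cons (nat_lit 44994) <| List.cons (nat_lit 65418) <| List.cons (nat_lit 119768) <| List.nil) <|
  List.cons (nat_lit 100242, nat_lit 0, List.cons (nat_lit 59297) <| List.cons (nat_lit 142809) <| List.cons (nat_lit 93409) <| List.cons (nat_lit 166346) <| List.cons (nat_lit 61385) <| List.nil) <|
  List.cons (nat_lit 100943, nat_lit 0, List.cons (nat_lit 157841) <| List.cons (nat_lit 188865) <| List.cons (nat_lit 138505) <| List.cons (nat_lit 1473) <| List.cons (nat_lit 78034) <| List.cons (nat_lit 41865) <| List.nil) <|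
  List.cons (nat_lit 101644, nat_lit 0, List.cons (nat_lit 146961) <| List.cons (nat_lit 150017) <| List.cons (nat_lit 24666) <| List.cons (nat_lit 105930) <| List.nil) <|
  List.cons (nat_lit 102345, nat_lit 0, List.cons (nat_lit 162105) <| List.cons (nat_lit 135585) <| List.cons (nat_lit 135241) <| List.cons (nat_lit 44154) <| List.cons (nat_lit 106842) <| List.nil) <|
  List.cons (nat_lit 103046, nat_lit 0, List.cons (nat_lit 162801) <| List.cons (nat_lit 163809) <| List.cons (nat_lit 164561) <| List.cons (nat_lit 113426) <| List.cons (nat_lit 17434) <| List.nil) <|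
  List.cons (nat_lit 103747, nat_lit 0, List.cons (nat_lit 8186) <| List.cons (nat_lit 54842) <| List.cons (nat_lit 85849) <| List.nil) <|
  List.cons (nat_lit 104448, nat_lit 0, List.cons (nat_lit 188658) <| List.cons (nat_lit 190241) <| List.cons (nat_lit 131306) <| List.cons (nat_lit 20961) <| List.nil) <|
  List.cons (nat_lit 105149, nat_lit 0, List.cons (nat_lit 24257) <| List.cons (nat_lit 190345) <| List.cons (nat_lit 33545) <| List.cons (nat_lit 39250) <| List.cons (nat_lit 13457) <| List.nil) <|
  List.cons (nat_lit 105850, nat_lit 0, List.cons (nat_lit 84257) <| List.cons (nat_lit 33721) <| List.cons (nat_lit 30937) <| List.cons (nat_lit 120570) <| List.cons (nat_lit 1209) <| List.cons (nat_lit 174785) <| List.nil) <|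
  List.cons (nat_lit 106551, nat_lit 0, List.cons (nat_lit 121929) <| List.cons (nat_lit 54961) <| List.cons (nat_lit 21601) <| List.cons (nat_lit 14633) <| List.cons (nat_lit 135769) <| List.cons (nat_lit 119618) <| List.cons (nat_lit 3777) <| List.nil) <|
  List.cons (nat_lit 107252, nat_lit 0, List.cons (nat_lit 9954) <| List.cons (nat_lit 166986) <| List.cons (nat_lit 185497) <| List.nil) <|
  List.cons (nat_lit 107953, nat_lit 0, List.cons (nat_lit 177057) <| List.cons (nat_lit 141706) <| List.cons (nat_lit 102522) <| List.cons (nat_lit 14681) <| List.cons (nat_lit 151320) <| List.nil) <|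
  List.cons (nat_lit 108654, nat_lit 0, List.cons (nat_lit 149785) <| List.cons (nat_lit 125730) <| List.cons (nat_lit 102794) <| List.cons (nat_lit 5249) <| List.cons (nat_lit 188337) <| List.nil) <|
  List.cons (nat_lit 109355, nat_lit 0, List.cons (nat_lit 141289) <| List.cons (nat_lit 140393) <| List.cons (nat_lit 68090) <| List.cons (nat_lit 38538) <| List.cons (nat_lit 167832) <| List.cons (nat_lit 1848) <| List.nil) <|
  List.cons (nat_lit 110056, nat_lit 0, List.cons (nat_lit 124401) <| List.cons (nat_lit 107522) <| List.cons (nat_lit 67250) <| List.cons (nat_lit 187032) <| List.nil) <|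
  List.cons (nat_lit 110757, nat_lit 0, List.cons (nat_lit 15594) <| List.cons (nat_lit 18865) <| List.cons (nat_lit 51274) <| List.cons (nat_lit 187833) <| List.nil) <|
  List.cons (nat_lit 111458, nat_lit 0, List.cons (nat_lit 22730) <| List.cons (nat_lit 9858) <| List.cons (nat_lit 171298) <| List.cons (nat_lit 186337) <| List.nil) <|
  List.cons (nat_lit 112159, nat_lit 0, List.cons (nat_lit 105057) <| List.cons (nat_lit 137977) <| List.cons (nat_lit 9217) <| List.cons (nat_lit 107113) <| List.cons (nat_lit 156546) <| List.cons (nat_lit 184800) <| List.nil) <|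
  anc4

/-- anchors -/
def anc2 : List (ℕ × ℕ × List ℕ) :=
  List.cons (nat_lit 56780, nat_lit 1, List.cons (nat_lit 116361) <| List.cons (nat_lit 148345) <| List.cons (nat_lit 73138) <| List.cons (nat_lit 83593) <| List.cons (nat_lit 187321) <| List.nil) <|
  List.cons (nat_lit 57481, nat_lit 1, List.cons (nat_lit 119457) <| List.cons (nat_lit 22522) <| List.cons (nat_lit 55482) <| List.nil) <|
  List.cons (nat_lit 58182, nat_lit 1, List.cons (nat_lit 114993) <| List.cons (nat_lit 132458) <| List.cons (nat_lit 163378) <| List.cons (nat_lit 29937) <| List.nil) <|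
  List.cons (nat_lit 58883, nat_lit 1, List.cons (nat_lit 84753) <| List.cons (nat_lit 91138) <| List.cons (nat_lit 55746) <| List.cons (nat_lit 108033) <| List.nil) <|
  List.cons (nat_lit 59584, nat_lit 1, List.cons (nat_lit 131778) <| List.cons (nat_lit 134001) <| List.cons (nat_lit 114418) <| List.cons (nat_lit 49025) <| List.nil) <|
  List.cons (nat_lit 60285, nat_lit 1, List.cons (nat_lit 64841) <| List.cons (nat_lit 23682) <| List.cons (nat_lit 183730) <| List.nil) <|
  List.cons (nat_lit 60986, nat_lit 1, List.cons (nat_lit 38993) <| List.cons (nat_lit 7922) <| List.cons (nat_lit 81642) <| List.nil) <|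
  List.cons (nat_lit 61687, nat_lit 1, List.cons (nat_lit 166882) <| List.cons (nat_lit 49234) <| List.nil) <|
  List.cons (nat_lit 62388, nat_lit 1, List.cons (nat_lit 79473) <| List.cons (nat_lit 19777) <| List.cons (nat_lit 108689) <| List.cons (nat_lit 36241) <| List.cons (nat_lit 80530) <| List.cons (nat_lit 130009) <| List.nil) <|
  List.cons (nat_lit 63089, nat_lit 1, List.cons (nat_lit 172826) <| List.cons (nat_lit 21770) <| List.nil) <|
  List.cons (nat_lit 63790, nat_lit 1, List.cons (nat_lit 61873) <| List.cons (nat_lit 151489) <| List.cons (nat_lit 110865) <| List.cons (nat_lit 187241) <| List.cons (nat_lit 167018) <| List.cons (nat_lit 14449) <| List.nil) <|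
  List.cons (nat_lit 64491, nat_lit 1, List.cons (nat_lit 190226) <| List.cons (nat_lit 186009) <| List.cons (nat_lit 63506) <| List.cons (nat_lit 29002) <| List.nil) <|
  List.cons (nat_lit 65192, nat_lit 1, List.cons (nat_lit 618) <| List.cons (nat_lit 30105) <| List.cons (nat_lit 135202) <| List.nil) <|
  List.cons (nat_lit 65893, nat_lit 1, List.cons (nat_lit 47042) <| List.cons (nat_lit 133234) <| List.cons (nat_lit 25922) <| List.nil) <|
  List.cons (nat_lit 66594, nat_lit 1, List.cons (nat_lit 71057) <| List.cons (nat_lit 168634) <| List.cons (nat_lit 69994) <| List.cons (nat_lit 809) <| List.nil) <|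
  List.cons (nat_lit 67295, nat_lit 1, List.cons (nat_lit 65001) <| List.cons (nat_lit 95209) <| List.cons (nat_lit 61026) <| List.cons (nat_lit 12753) <| List.cons (nat_lit 59801) <| List.nil) <|
  List.cons (nat_lit 67996, nat_lit 1, List.cons (nat_lit 17073) <| List.cons (nat_lit 187937) <| List.cons (nat_lit 187945) <| List.cons (nat_lit 179746) <| List.cons (nat_lit 53946) <| List.nil) <|
  List.cons (nat_lit 68697, nat_lit 1, List.cons (nat_lit 16609) <| List.cons (nat_lit 49826) <| List.cons (nat_lit 2274) <| List.cons (nat_lit 107705) <| List.nil) <|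
  List.cons (nat_lit 69398, nat_lit 1, List.cons (nat_lit 48713) <| List.cons (nat_lit 53066) <| List.cons (nat_lit 64650) <| List.cons (nat_lit 174329) <| List.cons (nat_lit 98752) <| List.nil) <|
  List.cons (nat_lit 70099, nat_lit 1, List.cons (nat_lit 5001) <| List.cons (nat_lit 61610) <| List.cons (nat_lit 157474) <| List.cons (nat_lit 181537) <| List.nil) <|
  List.cons (nat_lit 70800, nat_lit 1, List.cons (nat_lit 56002) <| List.cons (nat_lit 177802) <| List.nil) <|
  List.cons (nat_lit 71501, nat_lit 1, List.cons (nat_lit 112322) <| List.cons (nat_lit 94074) <| List.cons (nat_lit 185737) <| List.nil) <|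
  List.cons (nat_lit 72202, nat_lit 1, List.cons (nat_lit 35561) <| List.cons (nat_lit 150409) <| List.cons (nat_lit 63889) <| List.cons (nat_lit 150169) <| List.cons (nat_lit 54962) <| List.cons (nat_lit 50145) <| List.nil) <|
  List.cons (nat_lit 72903, nat_lit 1, List.cons (nat_lit 114337) <| List.cons (nat_lit 58913) <| List.cons (nat_lit 154154) <| List.cons (nat_lit 44978) <| List.nil) <|
  List.cons (nat_lit 73604, nat_lit 1, List.cons (nat_lit 139441) <| List.cons (nat_lit 139249) <| List.cons (nat_lit 140337) <| List.cons (nat_lit 188602) <| List.cons (nat_lit 12425) <| List.nil) <|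
  List.cons (nat_lit 74305, nat_lit 1, List.cons (nat_lit 163817) <| List.cons (nat_lit 155194) <| List.cons (nat_lit 20498) <| List.nil) <|
  List.cons (nat_lit 75006, nat_lit 1, List.cons (nat_lit 123666) <| List.cons (nat_lit 186274) <| List.cons (nat_lit 185265) <| List.nil) <|
  List.cons (nat_lit 75707, nat_lit 1, List.cons (nat_lit 159017) <| List.cons (nat_lit 190977) <| List.cons (nat_lit 112354) <| List.cons (nat_lit 180154) <| List.nil) <|
  List.cons (nat_lit 76408, nat_lit 1, List.cons (nat_lit 32522) <| List.cons (nat_lit 145162) <| List.nil) <|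
  List.cons (nat_lit 77109, nat_lit 1, List.cons (nat_lit 161705) <| List.cons (nat_lit 162881) <| List.cons (nat_lit 111250) <| List.cons (nat_lit 55730) <| List.nil) <|
  List.cons (nat_lit 77810, nat_lit 1, List.cons (nat_lit 125545) <| List.cons (nat_lit 171761) <| List.cons (nat_lit 83874) <| List.cons (nat_lit 186218) <| List.nil) <|
  List.cons (nat_lit 78511, nat_lit 1, List.cons (nat_lit 149225) <| List.cons (nat_lit 78066) <| List.cons (nat_lit 90938) <| List.cons (nat_lit 191073) <| List.nil) <|
  List.cons (nat_lit 79212, nat_lit 1, List.cons (nat_lit 75049) <| List.cons (nat_lit 77545) <| List.cons (nat_lit 94681) <| List.cons (nat_lit 105489) <| List.cons (nat_lit 94057) <| List.cons (nat_lit 14954) <| List.nil) <|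
  List.cons (nat_lit 79913, nat_lit 1, List.cons (nat_lit 68257) <| List.cons (nat_lit 83729) <| List.cons (nat_lit 141289) <| List.cons (nat_lit 185633) <| List.cons (nat_lit 45770) <| List.cons (nat_lit 173936) <| List.nil) <|
  List.cons (nat_lit 80614, nat_lit 1, List.cons (nat_lit 130185) <| List.cons (nat_lit 72249) <| List.cons (nat_lit 130937) <| List.cons (nat_lit 43033) <| List.cons (nat_lit 3610) <| List.cons (nat_lit 160840) <| List.nil) <|
  List.cons (nat_lit 81315, nat_lit 1, List.cons (nat_lit 181793) <| List.cons (nat_lit 153633) <| List.cons (nat_lit 166666) <| List.cons (nat_lit 189857) <| List.cons (nat_lit 129809) <| List.nil) <|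
  List.cons (nat_lit 82016, nat_lit 1, List.cons (nat_lit 149385) <| List.cons (nat_lit 122161) <| List.cons (nat_lit 103097) <| List.cons (nat_lit 155434) <| List.cons (nat_lit 29722) <| List.nil) <|
  List.cons (nat_lit 82717, nat_lit 1, List.cons (nat_lit 41882) <| List.cons (nat_lit 70706) <| List.nil) <|
  List.cons (nat_lit 83418, nat_lit 1, List.cons (nat_lit 173065) <| List.cons (nat_lit 174801) <| List.cons (nat_lit 145937) <| List.cons (nat_lit 76858) <| List.cons (nat_lit 104801) <| List.nil) <|
  List.cons (nat_lit 84119, nat_lit 1, List.cons (nat_lit 92425) <| List.cons (nat_lit 35625) <| List.cons (nat_lit 92961) <| List.cons (nat_lit 41698) <| List.cons (nat_lit 182441) <| List.nil) <|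
  anc3

/-- anchors -/
def anc1 : List (ℕ × ℕ × List ℕ) :=
  List.cons (nat_lit 28740, nat_lit 1, List.cons (nat_lit 25313) <| List.cons (nat_lit 43409) <| List.cons (nat_lit 91553) <| List.cons (nat_lit 122113) <| List.cons (nat_lit 177594) <| List.cons (nat_lit 137376) <| List.nil) <|
  List.cons (nat_lit 29441, nat_lit 1, List.cons (nat_lit 43329) <| List.cons (nat_lit 22073) <| List.cons (nat_lit 55169) <| List.cons (nat_lit 57986) <| List.cons (nat_lit 180746) <| List.nil) <|
  List.cons (nat_lit 30142, nat_lit 1, List.cons (nat_lit 154841) <| List.cons (nat_lit 50706) <| List.cons (nat_lit 139706) <| List.nil) <|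
  List.cons (nat_lit 30843, nat_lit 1, List.cons (nat_lit 44634) <| List.cons (nat_lit 153058) <| List.nil) <|
  List.cons (nat_lit 31544, nat_lit 1, List.cons (nat_lit 113705) <| List.cons (nat_lit 64273) <| List.cons (nat_lit 39770) <| List.cons (nat_lit 107026) <| List.cons (nat_lit 166209) <| List.nil) <|
  List.cons (nat_lit 32245, nat_lit 1, List.cons (nat_lit 21658) <| List.cons (nat_lit 170074) <| List.cons (nat_lit 171056) <| List.nil) <|
  List.cons (nat_lit 32946, nat_lit 1, List.cons (nat_lit 143313) <| List.cons (nat_lit 26281) <| List.cons (nat_lit 26553) <| List.cons (nat_lit 514) <| List.cons (nat_lit 118170) <| List.nil) <|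
  List.cons (nat_lit 33647, nat_lit 1, List.cons (nat_lit 145041) <| List.cons (nat_lit 179569) <| List.cons (nat_lit 168849) <| List.cons (nat_lit 150161) <| List.cons (nat_lit 27066) <| List.cons (nat_lit 120992) <| List.nil) <|
  List.cons (nat_lit 34348, nat_lit 1, List.cons (nat_lit 32737) <| List.cons (nat_lit 114450) <| List.cons (nat_lit 115305) <| List.cons (nat_lit 86457) <| List.cons (nat_lit 176945) <| List.nil) <|
  List.cons (nat_lit 35049, nat_lit 1, List.cons (nat_lit 21482) <| List.cons (nat_lit 93138) <| List.cons (nat_lit 144569) <| List.nil) <|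
  List.cons (nat_lit 35750, nat_lit 1, List.cons (nat_lit 20065) <| List.cons (nat_lit 19057) <| List.cons (nat_lit 113370) <| List.cons (nat_lit 113586) <| List.nil) <|
  List.cons (nat_lit 36451, nat_lit 1, List.cons (nat_lit 168593) <| List.cons (nat_lit 5370) <| List.cons (nat_lit 114722) <| List.nil) <|
  List.cons (nat_lit 37152, nat_lit 1, List.cons (nat_lit 185625) <| List.cons (nat_lit 137889) <| List.cons (nat_lit 156297) <| List.cons (nat_lit 33546) <| List.cons (nat_lit 42569) <| List.nil) <|
  List.cons (nat_lit 37853, nat_lit 1, List.cons (nat_lit 126977) <| List.cons (nat_lit 139153) <| List.cons (nat_lit 128953) <| List.cons (nat_lit 78530) <| List.cons (nat_lit 174792) <| List.nil) <|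
  List.cons (nat_lit 38554, nat_lit 1, List.cons (nat_lit 138817) <| List.cons (nat_lit 82081) <| List.cons (nat_lit 144257) <| List.cons (nat_lit 61745) <| List.cons (nat_lit 82393) <| List.cons (nat_lit 41322) <| List.cons (nat_lit 54048) <| List.nil) <|
  List.cons (nat_lit 39255, nat_lit 1, List.cons (nat_lit 191153) <| List.cons (nat_lit 23210) <| List.cons (nat_lit 127594) <| List.nil) <|
  List.cons (nat_lit 39956, nat_lit 1, List.cons (nat_lit 58977) <| List.cons (nat_lit 61937) <| List.cons (nat_lit 55689) <| List.cons (nat_lit 17602) <| List.cons (nat_lit 129754) <| List.nil) <|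
  List.cons (nat_lit 40657, nat_lit 1, List.cons (nat_lit 10497) <| List.cons (nat_lit 11505) <| List.cons (nat_lit 24177) <| List.cons (nat_lit 70842) <| List.cons (nat_lit 169665) <| List.nil) <|
  List.cons (nat_lit 41358, nat_lit 1, List.cons (nat_lit 185537) <| List.cons (nat_lit 28714) <| List.cons (nat_lit 153522) <| List.cons (nat_lit 178793) <| List.nil) <|
  List.cons (nat_lit 42059, nat_lit 1, List.cons (nat_lit 156770) <| List.cons (nat_lit 70066) <| List.cons (nat_lit 145081) <| List.nil) <|
  List.cons (nat_lit 42760, nat_lit 1, List.cons (nat_lit 152489) <| List.cons (nat_lit 139145) <| List.cons (nat_lit 54050) <| List.cons (nat_lit 12810) <| List.nil) <|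
  List.cons (nat_lit 43461, nat_lit 1, List.cons (nat_lit 143777) <| List.cons (nat_lit 1169) <| List.cons (nat_lit 158553) <| List.cons (nat_lit 169009) <| List.cons (nat_lit 58642) <| List.cons (nat_lit 30761) <| List.nil) <|
  List.cons (nat_lit 44162, nat_lit 1, List.cons (nat_lit 184273) <| List.cons (nat_lit 173057) <| List.cons (nat_lit 46506) <| List.cons (nat_lit 40825) <| List.cons (nat_lit 108681) <| List.nil) <|
  List.cons (nat_lit 44863, nat_lit 1, List.cons (nat_lit 129145) <| List.cons (nat_lit 75441) <| List.cons (nat_lit 98610) <| List.cons (nat_lit 40754) <| List.nil) <|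
  List.cons (nat_lit 45564, nat_lit 1, List.cons (nat_lit 84890) <| List.cons (nat_lit 75473) <| List.cons (nat_lit 145937) <| List.cons (nat_lit 24594) <| List.nil) <|
  List.cons (nat_lit 46265, nat_lit 1, List.cons (nat_lit 120025) <| List.cons (nat_lit 84361) <| List.cons (nat_lit 46122) <| List.cons (nat_lit 129986) <| List.nil) <|
  List.cons (nat_lit 46966, nat_lit 1, List.cons (nat_lit 161873) <| List.cons (nat_lit 174225) <| List.cons (nat_lit 27817) <| List.cons (nat_lit 5442) <| List.cons (nat_lit 97753) <| List.nil) <|
  List.cons (nat_lit 47667, nat_lit 1, List.cons (nat_lit 188785) <| List.cons (nat_lit 187689) <| List.cons (nat_lit 7898) <| List.cons (nat_lit 161426) <| List.cons (nat_lit 87313) <| List.nil) <|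
  List.cons (nat_lit 48368, nat_lit 1, List.cons (nat_lit 3617) <| List.cons (nat_lit 6345) <| List.cons (nat_lit 1449) <| List.cons (nat_lit 85953) <| List.cons (nat_lit 82010) <| List.cons (nat_lit 149288) <| List.nil) <|
  List.cons (nat_lit 49069, nat_lit 1, List.cons (nat_lit 17786) <| List.cons (nat_lit 95826) <| List.cons (nat_lit 43648) <| List.nil) <|
  List.cons (nat_lit 49770, nat_lit 1, List.cons (nat_lit 11937) <| List.cons (nat_lit 9153) <| List.cons (nat_lit 164042) <| List.cons (nat_lit 129218) <| List.nil) <|
  List.cons (nat_lit 50471, nat_lit 1, List.cons (nat_lit 2530) <| List.cons (nat_lit 8113) <| List.cons (nat_lit 4825) <| List.cons (nat_lit 72817) <| List.nil) <|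
  List.cons (nat_lit 51172, nat_lit 1, List.cons (nat_lit 130833) <| List.cons (nat_lit 16137) <| List.cons (nat_lit 80649) <| List.cons (nat_lit 79809) <| List.cons (nat_lit 105754) <| List.cons (nat_lit 55680) <| List.nil) <|
  List.cons (nat_lit 51873, nat_lit 1, List.cons (nat_lit 138002) <| List.cons (nat_lit 58266) <| List.cons (nat_lit 172297) <| List.nil) <|
  List.cons (nat_lit 52574, nat_lit 1, List.cons (nat_lit 100417) <| List.cons (nat_lit 133745) <| List.cons (nat_lit 184689) <| List.cons (nat_lit 144441) <| List.cons (nat_lit 89802) <| List.cons (nat_lit 170993) <| List.nil) <|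
  List.cons (nat_lit 53275, nat_lit 1, List.cons (nat_lit 138993) <| List.cons (nat_lit 173745) <| List.cons (nat_lit 8089) <| List.cons (nat_lit 124129) <| List.cons (nat_lit 10698) <| List.cons (nat_lit 33153) <| List.nil) <|
  List.cons (nat_lit 53976, nat_lit 1, List.cons (nat_lit 113122) <| List.cons (nat_lit 74154) <| List.cons (nat_lit 130985) <| List.nil) <|
  List.cons (nat_lit 54677, nat_lit 1, List.cons (nat_lit 63953) <| List.cons (nat_lit 35713) <| List.cons (nat_lit 63969) <| List.cons (nat_lit 93586) <| List.cons (nat_lit 29329) <| List.nil) <|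
  List.cons (nat_lit 55378, nat_lit 1, List.cons (nat_lit 127633) <| List.cons (nat_lit 124753) <| List.cons (nat_lit 169657) <| List.cons (nat_lit 180489) <| List.cons (nat_lit 5602) <| List.cons (nat_lit 156378) <| List.nil) <|
  List.cons (nat_lit 56079, nat_lit 1, List.cons (nat_lit 66698) <| List.cons (nat_lit 62249) <| List.cons (nat_lit 52362) <| List.nil) <|
  anc2

/-- anchors -/
def anc0 : List (ℕ × ℕ × List ℕ) :=
  List.cons (nat_lit 700, nat_lit 2, List.cons (nat_lit 76865) <| List.cons (nat_lit 154514) <| List.cons (nat_lit 102330) <| List.nil) <|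
  List.cons (nat_lit 1401, nat_lit 2, List.cons (nat_lit 163417) <| List.cons (nat_lit 88825) <| List.cons (nat_lit 126810) <| List.cons (nat_lit 44466) <| List.nil) <|
  List.cons (nat_lit 2102, nat_lit 2, List.cons (nat_lit 77961) <| List.cons (nat_lit 92241) <| List.cons (nat_lit 122217) <| List.cons (nat_lit 152306) <| List.cons (nat_lit 31121) <| List.nil) <|
  List.cons (nat_lit 2803, nat_lit 2, List.cons (nat_lit 86897) <| List.cons (nat_lit 85041) <| List.cons (nat_lit 70993) <| List.cons (nat_lit 29449) <| List.cons (nat_lit 158554) <| List.cons (nat_lit 144729) <| List.nil) <|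
  List.cons (nat_lit 3504, nat_lit 2, List.cons (nat_lit 173241) <| List.cons (nat_lit 188481) <| List.cons (nat_lit 116441) <| List.cons (nat_lit 148513) <| List.cons (nat_lit 36530) <| List.cons (nat_lit 68057) <| List.nil) <|
  List.cons (nat_lit 4205, nat_lit 2, List.cons (nat_lit 90873) <| List.cons (nat_lit 59617) <| List.cons (nat_lit 56162) <| List.cons (nat_lit 142474) <| List.nil) <|
  List.cons (nat_lit 4906, nat_lit 2, List.cons (nat_lit 58513) <| List.cons (nat_lit 28393) <| List.cons (nat_lit 32993) <| List.cons (nat_lit 20817) <| List.cons (nat_lit 50586) <| List.cons (nat_lit 175361) <| List.nil) <|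
  List.cons (nat_lit 5607, nat_lit 2, List.cons (nat_lit 109193) <| List.cons (nat_lit 128785) <| List.cons (nat_lit 41849) <| List.cons (nat_lit 142785) <| List.cons (nat_lit 23682) <| List.cons (nat_lit 94481) <| List.nil) <|
  List.cons (nat_lit 6308, nat_lit 2, List.cons (nat_lit 155690) <| List.cons (nat_lit 13914) <| List.cons (nat_lit 34992) <| List.nil) <|
  List.cons (nat_lit 7009, nat_lit 2, List.cons (nat_lit 114585) <| List.cons (nat_lit 102177) <| List.cons (nat_lit 114825) <| List.cons (nat_lit 117873) <| List.cons (nat_lit 77458) <| List.nil) <|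
  List.cons (nat_lit 7710, nat_lit 2, List.cons (nat_lit 115178) <| List.cons (nat_lit 72178) <| List.cons (nat_lit 165561) <| List.nil) <|
  List.cons (nat_lit 8411, nat_lit 2, List.cons (nat_lit 54641) <| List.cons (nat_lit 56729) <| List.cons (nat_lit 34057) <| List.cons (nat_lit 47313) <| List.cons (nat_lit 102034) <| List.cons (nat_lit 134049) <| List.nil) <|
  List.cons (nat_lit 9112, nat_lit 2, List.cons (nat_lit 49065) <| List.cons (nat_lit 15529) <| List.cons (nat_lit 182674) <| List.cons (nat_lit 101545) <| List.cons (nat_lit 173081) <| List.nil) <|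
  List.cons (nat_lit 9813, nat_lit 2, List.cons (nat_lit 173257) <| List.cons (nat_lit 172577) <| List.cons (nat_lit 22201) <| List.cons (nat_lit 136922) <| List.cons (nat_lit 54801) <| List.nil) <|
  List.cons (nat_lit 10514, nat_lit 2, List.cons (nat_lit 75170) <| List.cons (nat_lit 45058) <| List.cons (nat_lit 108905) <| List.nil) <|
  List.cons (nat_lit 11215, nat_lit 2, List.cons (nat_lit 87618) <| List.cons (nat_lit 10570) <| List.cons (nat_lit 28001) <| List.nil) <|
  List.cons (nat_lit 11916, nat_lit 2, List.cons (nat_lit 110066) <| List.cons (nat_lit 47658) <| List.cons (nat_lit 97345) <| List.nil) <|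
  List.cons (nat_lit 12617, nat_lit 1, List.cons (nat_lit 44546) <| List.cons (nat_lit 103994) <| List.cons (nat_lit 186961) <| List.nil) <|
  List.cons (nat_lit 13318, nat_lit 1, List.cons (nat_lit 73617) <| List.cons (nat_lit 169833) <| List.cons (nat_lit 180321) <| List.cons (nat_lit 9753) <| List.cons (nat_lit 190714) <| List.cons (nat_lit 6689) <| List.nil) <|
  List.cons (nat_lit 14019, nat_lit 1, List.cons (nat_lit 145137) <| List.cons (nat_lit 143201) <| List.cons (nat_lit 94298) <| List.cons (nat_lit 94002) <| List.cons (nat_lit 44609) <| List.nil) <|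
  List.cons (nat_lit 14720, nat_lit 1, List.cons (nat_lit 38537) <| List.cons (nat_lit 154193) <| List.cons (nat_lit 53281) <| List.cons (nat_lit 41033) <| List.cons (nat_lit 126554) <| List.cons (nat_lit 134113) <| List.nil) <|
  List.cons (nat_lit 15421, nat_lit 1, List.cons (nat_lit 34273) <| List.cons (nat_lit 81594) <| List.cons (nat_lit 189962) <| List.nil) <|
  List.cons (nat_lit 16122, nat_lit 1, List.cons (nat_lit 9074) <| List.cons (nat_lit 31058) <| List.nil) <|
  List.cons (nat_lit 16823, nat_lit 1, List.cons (nat_lit 42754) <| List.cons (nat_lit 120986) <| List.cons (nat_lit 24513) <| List.nil) <|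
  List.cons (nat_lit 17524, nat_lit 1, List.cons (nat_lit 154121) <| List.cons (nat_lit 120033) <| List.cons (nat_lit 133433) <| List.cons (nat_lit 144297) <| List.cons (nat_lit 123594) <| List.cons (nat_lit 481) <| List.nil) <|
  List.cons (nat_lit 18225, nat_lit 1, List.cons (nat_lit 173281) <| List.cons (nat_lit 160873) <| List.cons (nat_lit 170057) <| List.cons (nat_lit 60354) <| List.cons (nat_lit 7865) <| List.cons (nat_lit 9329) <| List.nil) <|
  List.cons (nat_lit 18926, nat_lit 1, List.cons (nat_lit 174497) <| List.cons (nat_lit 2993) <| List.cons (nat_lit 182449) <| List.cons (nat_lit 75546) <| List.cons (nat_lit 8706) <| List.nil) <|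
  List.cons (nat_lit 19627, nat_lit 1, List.cons (nat_lit 148449) <| List.cons (nat_lit 122602) <| List.cons (nat_lit 19098) <| List.cons (nat_lit 481) <| List.cons (nat_lit 133472) <| List.nil) <|
  List.cons (nat_lit 20328, nat_lit 1, List.cons (nat_lit 158794) <| List.cons (nat_lit 6626) <| List.cons (nat_lit 171529) <| List.cons (nat_lit 13896) <| List.nil) <|
  List.cons (nat_lit 21029, nat_lit 1, List.cons (nat_lit 86273) <| List.cons (nat_lit 75113) <| List.cons (nat_lit 84889) <| List.cons (nat_lit 3586) <| List.cons (nat_lit 173986) <| List.cons (nat_lit 8288) <| List.nil) <|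
  List.cons (nat_lit 21730, nat_lit 1, List.cons (nat_lit 97385) <| List.cons (nat_lit 41586) <| List.cons (nat_lit 156850) <| List.cons (nat_lit 163410) <| List.cons (nat_lit 4168) <| List.cons (nat_lit 188384) <| List.nil) <|
  List.cons (nat_lit 22431, nat_lit 1, List.cons (nat_lit 27002) <| List.cons (nat_lit 136450) <| List.cons (nat_lit 161801) <| List.cons (nat_lit 190624) <| List.cons (nat_lit 6713) <| List.nil) <|
  List.cons (nat_lit 23132, nat_lit 1, List.cons (nat_lit 59401) <| List.cons (nat_lit 185778) <| List.cons (nat_lit 50826) <| List.cons (nat_lit 2993) <| List.nil) <|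
  List.cons (nat_lit 23833, nat_lit 1, List.cons (nat_lit 158337) <| List.cons (nat_lit 140385) <| List.cons (nat_lit 139529) <| List.cons (nat_lit 21857) <| List.cons (nat_lit 156457) <| List.cons (nat_lit 102218) <| List.cons (nat_lit 188072) <| List.cons (nat_lit 91016) <| List.nil) <|
  List.cons (nat_lit 24534, nat_lit 1, List.cons (nat_lit 67505) <| List.cons (nat_lit 152738) <| List.cons (nat_lit 145746) <| List.cons (nat_lit 182673) <| List.cons (nat_lit 168368) <| List.nil) <|
  List.cons (nat_lit 25235, nat_lit 1, List.cons (nat_lit 68425) <| List.cons (nat_lit 68113) <| List.cons (nat_lit 69521) <| List.cons (nat_lit 42434) <| List.cons (nat_lit 153010) <| List.cons (nat_lit 181865) <| List.nil) <|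
  List.cons (nat_lit 25936, nat_lit 1, List.cons (nat_lit 77825) <| List.cons (nat_lit 108761) <| List.cons (nat_lit 176882) <| List.cons (nat_lit 83922) <| List.nil) <|
  List.cons (nat_lit 26637, nat_lit 1, List.cons (nat_lit 103937) <| List.cons (nat_lit 100561) <| List.cons (nat_lit 137418) <| List.cons (nat_lit 178706) <| List.cons (nat_lit 126265) <| List.nil) <|
  List.cons (nat_lit 27338, nat_lit 1, List.cons (nat_lit 49458) <| List.cons (nat_lit 181026) <| List.cons (nat_lit 190193) <| List.nil) <|
  List.cons (nat_lit 28039, nat_lit 1, List.cons (nat_lit 135153) <| List.cons (nat_lit 151033) <| List.cons (nat_lit 96346) <| List.cons (nat_lit 154169) <| List.cons (nat_lit 143025) <| List.nil) <|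
  anc1

/-- witnesses -/
def wit : List ℕ :=
  List.cons (nat_lit 1) <| List.cons (nat_lit 2) <| List.cons (nat_lit 3) <| List.cons (nat_lit 4) <| List.cons (nat_lit 5) <| List.cons (nat_lit 6) <| List.cons (nat_lit 7) <| List.cons (nat_lit 8) <| List.cons (nat_lit 9) <| List.cons (nat_lit 11) <| List.cons (nat_lit 12) <| List.cons (nat_lit 13) <| List.cons (nat_lit 14) <| List.cons (nat_lit 15) <| List.cons (nat_lit 16) <| List.cons (nat_lit 19) <| List.cons (nat_lit 21) <| List.cons (nat_lit 23) <| List.cons (nat_lit 29) <| List.cons (nat_lit 30) <| List.cons (nat_lit 33) <| List.cons (nat_lit 35) <| List.cons (nat_lit 38) <| List.cons (nat_lit 41) <| List.cons (nat_lit 43) <| List.cons (nat_lit 45) <| List.cons (nat_lit 51) <| List.cons (nat_lit 57) <| List.cons (nat_lit 59) <| List.cons (nat_lit 60) <| List.cons (nat_lit 62) <| List.cons (nat_lit 65) <| List.cons (nat_lit 70) <| List.cons (nat_lit 73) <| List.cons (nat_lit 87) <| List.cons (nat_lit 92) <| List.cons (nat_lit 93) <| List.cons (nat_lit 100) <| List.cons (nat_lit 102) <| List.cons (nat_lit 104)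 <| List.cons (nat_lit 107) <| List.cons (nat_lit 108) <| List.cons (nat_lit 118) <| List.cons (nat_lit 124) <| List.cons (nat_lit 132) <| List.cons (nat_lit 137) <| List.cons (nat_lit 140) <| List.cons (nat_lit 150) <| List.cons (nat_lit 207) <| List.cons (nat_lit 229) <| List.cons (nat_lit 255) <| List.cons (nat_lit 272) <| List.cons (nat_lit 294) <| List.cons (nat_lit 434) <| List.cons (nat_lit 634) <| List.cons (nat_lit 1287) <| List.cons (nat_lit 1737) <| List.cons (nat_lit 2862) <| List.cons (nat_lit 3602) <| List.cons (nat_lit 8383) <| List.nil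

theorem num1 : A.numOK = true := by decide +kernel

theorem num2 : A.numOK2 (nat_lit 12300) (nat_lit 24600) (nat_lit 2) = true := by decide +kernel

theorem num3 : A.numOK3 (nat_lit 151786) (nat_lit 0) (nat_lit 8383) = true := by decide +kernel

theorem ancOK : A.ancs (nat_lit 12300) (nat_lit 24600) (nat_lit 173979) anc0 (nat_lit 0) = true := by decide +kernel

theorem devOK : A.devchk (nat_lit 24600) (nat_lit 2) = true := by decide +kernel

theorem lea1 : A.lea (nat_lit 0) (nat_lit 0) (nat_lit 0) wit = true := by decide +kernel

theorem lea2 : A.lea (nat_lit 0) (nat_lit 232660) (nat_lit 0) wit = true := by decide +kernel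

theorem bndOK : bndW (nat_lit 8383) wit = true := by decide +kernel

theorem oneA : A.one WA (nat_lit 80873) = true := by decide +kernel

theorem oneB : A.one WB (nat_lit 80844) = true := by decide +kernel

/-- exceptional positions -/
def VM : ℕ := Nat.pow (nat_lit 2) (nat_lit 93104)

theorem perC : A.perC (nat_lit 93076) VM = true := by decide +kernel

end Pool.Agent.H70.AB.W75a
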