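import Pool.Agent.H70.AB.W75a.Data

/-!
# Direct checks W75a, part 0
-/

namespace Pool.Agent.H70.AB.W75a

open Pool.Agent.H70.AB

theorem dir0 : A.chkR (nat_lit 1) (nat_lit 100) = true := by decide +kernel

theorem dir1 : A.chkR (nat_lit 101) (nat_lit 100) = true := by decide +kernel

theorem dir2 : A.chkR (nat_lit 201) (nat_lit 100) = true := by decide +kernel

theorem dir3 : A.chkR (nat_lit 301) (nat_lit 100) = true := by decide +kernel

theorem dir4 : A.chkR (nat_lit 401) (nat_lit 100) = true := by decide +kernel

theorem dir5 : A.chkR (nat_lit 501) (nat_lit 100) = true := by decide +kernel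

theorem dir6 : A.chkR (nat_lit 601) (nat_lit 100) = true := by decide +kernel

theorem dir7 : A.chkR (nat_lit 701) (nat_lit 100) = true := by decide +kernel

theorem dir8 : A.chkR (nat_lit 801) (nat_lit 100) = true := by decide +kernel

theorem dir9 : A.chkR (nat_lit 901) (nat_lit 100) = true := by decide +kernel

theorem dir10 : A.chkR (nat_lit 1001) (nat_lit 100) = true := by decide +kernel

theorem dir11 : A.chkR (nat_lit 1101) (nat_lit 100) = true := by decide +kernel

theorem dir12 : A.chkR (nat_lit 1201) (nat_lit 100) = true := by decide +kernel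

theorem dir13 : A.chkR (nat_lit 1301) (nat_lit 100) = true := by decide +kernel

theorem dir14 : A.chkR (nat_lit 1401) (nat_lit 100) = true := by decide +kernel

theorem dir15 : A.chkR (nat_lit 1501) (nat_lit 100) = true := by decide +kernel

theorem dir16 : A.chkR (nat_lit 1601) (nat_lit 100) = true := by decide +kernel

theorem dir17 : A.chkR (nat_lit 1701) (nat_lit 100) = true := by decide +kernel

theorem dir18 : A.chkR (nat_lit 1801) (nat_lit 100) = true := by decide +kernel

theorem dir19 : A.chkR (nat_lit 1901) (nat_lit 100) = true := by decide +kernel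

theorem dir20 : A.chkR (nat_lit 2001) (nat_lit 100) = true := by decide +kernel

theorem dir21 : A.chkR (nat_lit 2101) (nat_lit 100) = true := by decide +kernel

theorem dir22 : A.chkR (nat_lit 2201) (nat_lit 100) = true := by decide +kernel

theorem dir23 : A.chkR (nat_lit 2301) (nat_lit 100) = true := by decide +kernel

theorem dir24 : A.chkR (nat_lit 2401) (nat_lit 100) = true := by decide +kernel


end Pool.Agent.H70.AB.W75a
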