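import Pool.Agent.H70.AB.W75a.Data

/-!
# Direct checks W75a, part 1
-/

namespace Pool.Agent.H70.AB.W75a

open Pool.Agent.H70.AB

theorem dir25 : A.chkR (nat_lit 2501) (nat_lit 100) = true := by decide +kernel

theorem dir26 : A.chkR (nat_lit 2601) (nat_lit 100) = true := by decide +kernel

theorem dir27 : A.chkR (nat_lit 2701) (nat_lit 100) = true := by decide +kernel

theorem dir28 : A.chkR (nat_lit 2801) (nat_lit 100) = true := by decide +kernel

theorem dir29 : A.chkR (nat_lit 2901) (nat_lit 100) = true := by decide +kernel

theorem dir30 : A.chkR (nat_lit 3001) (nat_lit 100) = true := by decide +kernel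

theorem dir31 : A.chkR (nat_lit 3101) (nat_lit 100) = true := by decide +kernel

theorem dir32 : A.chkR (nat_lit 3201) (nat_lit 100) = true := by decide +kernel

theorem dir33 : A.chkR (nat_lit 3301) (nat_lit 100) = true := by decide +kernel

theorem dir34 : A.chkR (nat_lit 3401) (nat_lit 100) = true := by decide +kernel

theorem dir35 : A.chkR (nat_lit 3501) (nat_lit 100) = true := by decide +kernel

theorem dir36 : A.chkR (nat_lit 3601) (nat_lit 100) = true := by decide +kernel

theorem dir37 : A.chkR (nat_lit 3701) (nat_lit 100) = true := by decide +kernel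

theorem dir38 : A.chkR (nat_lit 3801) (nat_lit 100) = true := by decide +kernel

theorem dir39 : A.chkR (nat_lit 3901) (nat_lit 100) = true := by decide +kernel

theorem dir40 : A.chkR (nat_lit 4001) (nat_lit 100) = true := by decide +kernel

theorem dir41 : A.chkR (nat_lit 4101) (nat_lit 100) = true := by decide +kernel

theorem dir42 : A.chkR (nat_lit 4201) (nat_lit 100) = true := by decide +kernel

theorem dir43 : A.chkR (nat_lit 4301) (nat_lit 100) = true := by decide +kernel

theorem dir44 : A.chkR (nat_lit 4401) (nat_lit 100) = true := by decide +kernel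

theorem dir45 : A.chkR (nat_lit 4501) (nat_lit 100) = true := by decide +kernel

theorem dir46 : A.chkR (nat_lit 4601) (nat_lit 100) = true := by decide +kernel

theorem dir47 : A.chkR (nat_lit 4701) (nat_lit 100) = true := by decide +kernel

theorem dir48 : A.chkR (nat_lit 4801) (nat_lit 100) = true := by decide +kernel

theorem dir49 : A.chkR (nat_lit 4901) (nat_lit 100) = true := by decide +kernel


end Pool.Agent.H70.AB.W75a
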