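import Pool.Agent.H70.AB.W75a.Data

/-!
# Direct checks W75a, part 3
-/

namespace Pool.Agent.H70.AB.W75a

open Pool.Agent.H70.AB

theorem dir75 : A.chkR (nat_lit 7501) (nat_lit 100) = true := by decide +kernel

theorem dir76 : A.chkR (nat_lit 7601) (nat_lit 100) = true := by decide +kernel

theorem dir77 : A.chkR (nat_lit 7701) (nat_lit 100) = true := by decide +kernel

theorem dir78 : A.chkR (nat_lit 7801) (nat_lit 100) = true := by decide +kernel

theorem dir79 : A.chkR (nat_lit 7901) (nat_lit 100) = true := by decide +kernel

theorem dir80 : A.chkR (nat_lit 8001) (nat_lit 100) = true := by decide +kernel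

theorem dir81 : A.chkR (nat_lit 8101) (nat_lit 100) = true := by decide +kernel

theorem dir82 : A.chkR (nat_lit 8201) (nat_lit 100) = true := by decide +kernel

theorem dir83 : A.chkR (nat_lit 8301) (nat_lit 100) = true := by decide +kernel

theorem dir84 : A.chkR (nat_lit 8401) (nat_lit 100) = true := by decide +kernel

theorem dir85 : A.chkR (nat_lit 8501) (nat_lit 100) = true := by decide +kernel

theorem dir86 : A.chkR (nat_lit 8601) (nat_lit 100) = true := by decide +kernel

theorem dir87 : A.chkR (nat_lit 8701) (nat_lit 100) = true := by decide +kernel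

theorem dir88 : A.chkR (nat_lit 8801) (nat_lit 100) = true := by decide +kernel

theorem dir89 : A.chkR (nat_lit 8901) (nat_lit 100) = true := by decide +kernel

theorem dir90 : A.chkR (nat_lit 9001) (nat_lit 100) = true := by decide +kernel

theorem dir91 : A.chkR (nat_lit 9101) (nat_lit 100) = true := by decide +kernel

theorem dir92 : A.chkR (nat_lit 9201) (nat_lit 100) = true := by decide +kernel

theorem dir93 : A.chkR (nat_lit 9301) (nat_lit 100) = true := by decide +kernel

theorem dir94 : A.chkR (nat_lit 9401) (nat_lit 100) = true := by decide +kernel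

theorem dir95 : A.chkR (nat_lit 9501) (nat_lit 100) = true := by decide +kernel

theorem dir96 : A.chkR (nat_lit 9601) (nat_lit 100) = true := by decide +kernel

theorem dir97 : A.chkR (nat_lit 9701) (nat_lit 100) = true := by decide +kernel

theorem dir98 : A.chkR (nat_lit 9801) (nat_lit 100) = true := by decide +kernel

theorem dir99 : A.chkR (nat_lit 9901) (nat_lit 100) = true := by decide +kernel


end Pool.Agent.H70.AB.W75a
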