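import Pool.Agent.H70.AB.W75a.Data

/-!
# Direct checks W75a, part 4
-/

namespace Pool.Agent.H70.AB.W75a

open Pool.Agent.H70.AB

theorem dir100 : A.chkR (nat_lit 10001) (nat_lit 100) = true := by decide +kernel

theorem dir101 : A.chkR (nat_lit 10101) (nat_lit 100) = true := by decide +kernel

theorem dir102 : A.chkR (nat_lit 10201) (nat_lit 100) = true := by decide +kernel

theorem dir103 : A.chkR (nat_lit 10301) (nat_lit 100) = true := by decide +kernel

theorem dir104 : A.chkR (nat_lit 10401) (nat_lit 100) = true := by decide +kernel

theorem dir105 : A.chkR (nat_lit 10501) (nat_lit 100) = true := by decide +kernel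

theorem dir106 : A.chkR (nat_lit 10601) (nat_lit 100) = true := by decide +kernel

theorem dir107 : A.chkR (nat_lit 10701) (nat_lit 100) = true := by decide +kernel

theorem dir108 : A.chkR (nat_lit 10801) (nat_lit 100) = true := by decide +kernel

theorem dir109 : A.chkR (nat_lit 10901) (nat_lit 100) = true := by decide +kernel

theorem dir110 : A.chkR (nat_lit 11001) (nat_lit 100) = true := by decide +kernel

theorem dir111 : A.chkR (nat_lit 11101) (nat_lit 100) = true := by decide +kernel

theorem dir112 : A.chkR (nat_lit 11201) (nat_lit 100) = true := by decide +kernel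

theorem dir113 : A.chkR (nat_lit 11301) (nat_lit 100) = true := by decide +kernel

theorem dir114 : A.chkR (nat_lit 11401) (nat_lit 100) = true := by decide +kernel

theorem dir115 : A.chkR (nat_lit 11501) (nat_lit 100) = true := by decide +kernel

theorem dir116 : A.chkR (nat_lit 11601) (nat_lit 100) = true := by decide +kernel

theorem dir117 : A.chkR (nat_lit 11701) (nat_lit 100) = true := by decide +kernel

theorem dir118 : A.chkR (nat_lit 11801) (nat_lit 100) = true := by decide +kernel

theorem dir119 : A.chkR (nat_lit 11901) (nat_lit 100) = true := by decide +kernel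

theorem dir120 : A.chkR (nat_lit 12001) (nat_lit 100) = true := by decide +kernel

theorem dir121 : A.chkR (nat_lit 12101) (nat_lit 100) = true := by decide +kernel

theorem dir122 : A.chkR (nat_lit 12201) (nat_lit 99) = true := by decide +kernel


end Pool.Agent.H70.AB.W75a
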